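import Pool.Agent.Helper3.FC.Goals

/-! # Project FC: goal CB (chain bound for one sequence) -/

set_option autoImplicit false

namespace Pool.Agent.Helper5.FC.CB

open Pool.Agent.Helper3.FC
open scoped BigOperators

lemma mix_mem {η : ℝ} (h0 : 0 ≤ η) (h1 : η ≤ 1) {y : ℕ → ℝ} {L : ℕ}
    (hy : ∀ j < L, 0 ≤ y j ∧ y j ≤ 1) : ∀ j ≤ L, 0 ≤ mix η y j ∧ mix η y j ≤ 1 := by
  intro j
  induction j with
  | zero => intro _; simp [mix]
  | succ j ih =>
    intro hj
    obtain ⟨a, b⟩ := ih (by omega)
    obtain ⟨c, d⟩ := hy j (by omega)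
    simp only [mix]
    constructor
    · have := mul_nonneg (sub_nonneg.2 h1) a
      have := mul_nonneg h0 c
      linarith
    · have := mul_le_mul_of_nonneg_left b (sub_nonneg.2 h1)
      have := mul_le_mul_of_nonneg_left d h0
      linarith

lemma mix_sum {η : ℝ} {y : ℕ → ℝ} (L : ℕ) :
    η * ∑ j ∈ Finset.range L, y j = mix η y L + η * ∑ j ∈ Finset.range L, mix η y j := by
  induction L with
  | zero => simp [mix]
  | succ L ih =>
    rw [Finset.sum_range_succ, Finset.sum_range_succ, mul_add, ih, mul_add]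
    simp only [mix]
    ring

lemma ev_m : ∃ m₀ : ℕ, ∀ m ≥ m₀, 1 ≤ m ∧ 1 ≤ Real.log (4 * m) ∧ Real.log (4 * m) ≤ 4 * m ∧
    2 * Real.exp (-(1 / 1000000 * Real.log (4 * m))) ≤ 1 / 1000000 * Real.log (4 * m) := by
  have h1 : Filter.Tendsto (fun m : ℕ => Real.log (4 * (m : ℝ))) Filter.atTop Filter.atTop := by
    apply Real.tendsto_log_atTop.comp
    exact Filter.Tendsto.const_mul_atTop (by norm_num) tendsto_natCast_atTop_atTop
  have h2 := (h1.eventually_ge_atTop 2000000).and (Filter.eventually_ge_atTop 1)
  obtain ⟨m₀, hm⟩ := Filter.eventually_atTop.1 h2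
  refine ⟨m₀, fun m hm' => ?_⟩
  obtain ⟨ha, hb⟩ := hm m hm'
  refine ⟨hb, by linarith, ?_, ?_⟩
  · have hp : (0 : ℝ) < 4 * m := by
      have : (1 : ℝ) ≤ m := by exact_mod_cast hb
      linarith
    have := Real.log_le_sub_one_of_pos hp
    linarith
  · have : Real.exp (-(1 / 1000000 * Real.log (4 * m))) ≤ 1 := by
      apply Real.exp_le_one_iff.2
      linarith
    linarith

theorem t : CBStmt := by
  obtain ⟨m₀, hm₀⟩ := ev_m
  refine ⟨m₀, fun m hm => ?_⟩
  obtain ⟨hm1, hD1, hD4, hDe⟩ := hm₀ m hm
  set D : ℝ := Real.log (4 * m) with hD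
  have hmR : (1 : ℝ) ≤ m := by exact_mod_cast hm1
  have h4m : (0 : ℝ) < 4 * m := by linarith
  have hLam : Lam m = D / (4 * m) := rfl
  have hLam0 : 0 < Lam m := by rw [hLam]; positivity
  have hLam1 : Lam m ≤ 1 := by rw [hLam, div_le_one h4m]; exact hD4
  have hη0 : 0 < pη m := by unfold pη; positivity
  have hη1 : pη m ≤ 1 := by unfold pη; linarith
  have hη : pη m = Lam m / 100000 := rfl
  refine ⟨Nat.ceil (100000 / (pη m * Lam m)) + 1, fun L hL σ hσ1 hσ4 α hα y hy hyc => ?_⟩
  have hσR1 : (1 : ℝ) ≤ σ := by exact_mod_cast hσ1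
  have hσR4 : (σ : ℝ) ≤ 4 := by exact_mod_cast hσ4
  have hσ0 : (0 : ℝ) < σ := by linarith
  have h4σ : 1 ≤ 4 / (σ : ℝ) := by rw [le_div_iff₀ hσ0]; linarith
  have h4σ' : 4 / (σ : ℝ) ≤ 4 := by rw [div_le_iff₀ hσ0]; linarith
  set X : ℝ := max 0 (1 - α) with hX
  have hX0 : 0 ≤ X := le_max_left _ _
  have hX1 : 1 - α ≤ X := le_max_right _ _
  set b : ℝ := 4 / σ * (X + 1 / 1000000) with hb
  have hbe : 1 / 1000000 ≤ b := by
    rw [hb]
    have : 1 * (X + 1 / 1000000) ≤ 4 / σ * (X + 1 / 1000000) :=
      mul_le_mul_of_nonneg_right h4σ (by linarith)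
    linarith
  have hmix := mix_mem hη0.le hη1 hy
  -- the claim
  have key : ∀ j ≤ L, mix (pη m) y j ≤ Lam m * (b + 1 / 100000) := by
    intro j
    induction j with
    | zero =>
      intro _
      simp only [mix]
      exact mul_nonneg hLam0.le (by linarith)
    | succ j ih =>
      intro hj
      have ih' := ih (by omega)
      obtain ⟨hM0, hM1⟩ := hmix j (by omega)
      obtain ⟨hy0, hy1⟩ := hy j (by omega)
      by_cases hc : Lam m * b ≤ mix (pη m) y j
      · have hle : y j ≤ mix (pη m) y j := by
          have h1 : (1 - mix (pη m) y j) ^ (σ * m) ≤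
              Real.exp (-(σ * m * (Lam m * b))) := by
            have h2 : 1 - mix (pη m) y j ≤ Real.exp (-(Lam m * b)) := by
              have := Real.add_one_le_exp (-(Lam m * b))
              linarith
            calc (1 - mix (pη m) y j) ^ (σ * m) ≤ Real.exp (-(Lam m * b)) ^ (σ * m) :=
                  pow_le_pow_left₀ (by linarith) h2 _
              _ = Real.exp (-(σ * m * (Lam m * b))) := by
                  rw [← Real.exp_nat_mul]
                  congr 1
                  push_cast
                  ring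
          have h3 : (σ : ℝ) * m * (Lam m * b) = D * (X + 1 / 1000000) := by
            rw [hLam, hb]
            field_simp
          have h4 := hyc j (by omega)
          have h5 : y j ≤ 2 * Real.exp (-(α * D)) * Real.exp (-(D * (X + 1 / 1000000))) := by
            refine h4.trans ?_
            apply mul_le_mul_of_nonneg_left _ (by positivity)
            rw [h3] at h1
            exact h1
          have h6 : Real.exp (-(α * D)) * Real.exp (-(D * (X + 1 / 1000000))) ≤
              Real.exp (-D) * Real.exp (-(1 / 1000000 * D)) := by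
            rw [← Real.exp_add, ← Real.exp_add]
            apply Real.exp_le_exp.2
            have : 0 ≤ D * (X - (1 - α)) := mul_nonneg (by linarith) (by linarith)
            nlinarith
          have h7 : Real.exp (-D) = 1 / (4 * m) := by
            rw [Real.exp_neg, hD, Real.exp_log h4m, one_div]
          have h8 : y j ≤ Lam m * (1 / 1000000) := by
            calc y j ≤ 2 * (Real.exp (-D) * Real.exp (-(1 / 1000000 * D))) := by
                  rw [mul_assoc] at h5
                  linarith
              _ = 1 / (4 * m) * (2 * Real.exp (-(1 / 1000000 * D))) := by rw [h7]; ring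
              _ ≤ 1 / (4 * m) * (1 / 1000000 * D) :=
                  mul_le_mul_of_nonneg_left hDe (by positivity)
              _ = Lam m * (1 / 1000000) := by rw [hLam]; ring
          have h9 : Lam m * (1 / 1000000) ≤ Lam m * b := mul_le_mul_of_nonneg_left hbe hLam0.le
          linarith
        simp only [mix]
        have := mul_le_mul_of_nonneg_left hle hη0.le
        linarith
      · push Not at hc
        simp only [mix]
        have h1 : pη m * y j ≤ pη m := by
          have := mul_le_mul_of_nonneg_left hy1 hη0.le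
          linarith
        have h2 : 0 ≤ pη m * mix (pη m) y j := mul_nonneg hη0.le hM0
        have h3 : Lam m * (b + 1 / 100000) = Lam m * b + pη m := by rw [hη]; ring
        rw [h3]
        linarith
  -- the average
  have hLge : (100000 / (pη m * Lam m)) ≤ L := by
    have h1 := Nat.le_ceil (100000 / (pη m * Lam m))
    have h2 : ((Nat.ceil (100000 / (pη m * Lam m)) : ℕ) : ℝ) ≤ L := by
      exact_mod_cast (by omega : Nat.ceil (100000 / (pη m * Lam m)) ≤ L)
    linarith
  have hL0 : (0 : ℝ) < L := by
    have : 1 ≤ L := by omega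
    exact_mod_cast this
  have hpl : 0 < pη m * Lam m := mul_pos hη0 hLam0
  have hsum := mix_sum (η := pη m) (y := y) L
  have hs2 : ∑ j ∈ Finset.range L, mix (pη m) y j ≤ L * (Lam m * (b + 1 / 100000)) := by
    have := Finset.sum_le_card_nsmul (Finset.range L) (fun j => mix (pη m) y j)
      (Lam m * (b + 1 / 100000)) (fun j hj => key j (Finset.mem_range.1 hj).le)
    rwa [Finset.card_range, nsmul_eq_mul] at this
  have h1 : pη m * ∑ j ∈ Finset.range L, y j ≤
      1 + pη m * (L * (Lam m * (b + 1 / 100000))) := by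
    rw [hsum]
    have := mul_le_mul_of_nonneg_left hs2 hη0.le
    have := (hmix L le_rfl).2
    linarith
  have h2 : (1 : ℝ) ≤ pη m * (L * (Lam m * (1 / 100000))) := by
    rw [div_le_iff₀ hpl] at hLge
    nlinarith
  have h3 : ∑ j ∈ Finset.range L, y j ≤ L * (Lam m * (b + 2 / 100000)) := by
    have : pη m * ∑ j ∈ Finset.range L, y j ≤ pη m * (L * (Lam m * (b + 2 / 100000))) := by
      calc pη m * ∑ j ∈ Finset.range L, y j
          ≤ 1 + pη m * (L * (Lam m * (b + 1 / 100000))) := h1
        _ ≤ pη m * (L * (Lam m * (1 / 100000))) + pη m * (L * (Lam m * (b + 1 / 100000))) := by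
            linarith
        _ = pη m * (L * (Lam m * (b + 2 / 100000))) := by ring
    exact le_of_mul_le_mul_left this hη0
  have h4 : b + 2 / 100000 ≤ 4 / σ * X + 1 / 10000 := by
    rw [hb]
    nlinarith
  rw [div_le_iff₀ hL0]
  calc ∑ j ∈ Finset.range L, y j ≤ L * (Lam m * (b + 2 / 100000)) := h3
    _ ≤ L * (Lam m * (4 / σ * X + 1 / 10000)) := by
        apply mul_le_mul_of_nonneg_left _ hL0.le
        exact mul_le_mul_of_nonneg_left h4 hLam0.le
    _ = Lam m * (4 / σ * X + 1 / 10000) * L := by ring

end Pool.Agent.Helper5.FC.CB
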